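import Mathlib

/-!
# Either nearly orthogonal to a covector, or a good basis

For a finite set of integer vectors: either all the vectors are nearly orthogonal to one covector,
or there is a basis of vectors of the set in which the coordinates of all vectors are small.
-/

set_option autoImplicit false

namespace Pool.Agent.H1.OCM

open Finset Matrix

variable {c : ℕ}

/-- The real vector of an integer vector. -/
def rv (ξ : Fin c → ℤ) : Fin c → ℝ := fun i => (ξ i : ℝ)

/-- The matrix of a family of integer vectors. -/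
def mt (xs : Fin c → Fin c → ℤ) : Matrix (Fin c) (Fin c) ℝ := Matrix.of fun i j => (xs i j : ℝ)

theorem orth_of_span (Ξ : Set (Fin c → ℤ)) (h : Submodule.span ℝ (rv '' Ξ) < ⊤) :
    ∃ n : Fin c → ℝ, ∑ i, |n i| = 1 ∧ ∀ ξ ∈ Ξ, ∑ i, n i * ξ i = 0 := by
  obtain ⟨f, hf, hk⟩ := Submodule.exists_le_ker_of_lt_top _ h
  have hsum : ∀ v : Fin c → ℝ, f v = ∑ i, f (Pi.single i 1) * v i := by
    intro v
    have h1 : v = ∑ i, v i • (Pi.single i (1 : ℝ) : Fin c → ℝ) := by
      funext j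
      simp [Finset.sum_apply, Pi.single_apply]
    conv_lhs => rw [h1]
    rw [map_sum]
    refine Finset.sum_congr rfl fun i _ => ?_
    rw [map_smul, smul_eq_mul, mul_comm]
  set s := ∑ i, |f (Pi.single i 1)| with hs
  have hs0 : 0 < s := by
    rcases (Finset.sum_nonneg fun i (_ : i ∈ univ) => abs_nonneg (f (Pi.single i 1))).eq_or_lt
      with h0 | h0
    · exfalso
      apply hf
      have h1 : ∀ i ∈ univ, |f (Pi.single i (1 : ℝ))| = 0 :=
        (Finset.sum_eq_zero_iff_of_nonneg fun i _ => abs_nonneg _).1 h0.symm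
      ext v
      have h2 : f (Pi.single v (1 : ℝ)) = 0 := abs_eq_zero.1 (h1 v (mem_univ v))
      simpa using h2
    · exact h0
  refine ⟨fun i => f (Pi.single i 1) / s, ?_, ?_⟩
  · have : ∀ i, |f (Pi.single i (1 : ℝ)) / s| = |f (Pi.single i 1)| / s := by
      intro i
      rw [abs_div, abs_of_pos hs0]
    simp only [this]
    rw [← Finset.sum_div, div_self hs0.ne']
  · intro ξ hξ
    have h1 : f (rv ξ) = 0 := by
      have := hk (Submodule.subset_span (Set.mem_image_of_mem rv hξ))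
      simpa using this
    rw [hsum] at h1
    have h2 : ∑ i, f (Pi.single i 1) / s * (ξ i : ℝ) = (∑ i, f (Pi.single i 1) * rv ξ i) / s := by
      rw [Finset.sum_div]
      refine Finset.sum_congr rfl fun i _ => ?_
      rw [rv]
      ring
    rw [h2, h1, zero_div]

theorem basis_of_span (Ξ : Set (Fin c → ℤ)) (h : Submodule.span ℝ (rv '' Ξ) = ⊤) :
    ∃ xs : Fin c → Fin c → ℤ, (∀ i, xs i ∈ Ξ) ∧ (mt xs).det ≠ 0 := by
  set b := Module.Basis.ofSpan (K := ℝ) h.ge with hb
  have hfin : Module.finrank ℝ (Fin c → ℝ) = c := by simp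
  have hfi := Module.Finite.finite_basis b
  have := Fintype.ofFinite ((linearIndepOn_empty ℝ id).extend (Set.empty_subset (rv '' Ξ)))
  have hcard := Module.finrank_eq_card_basis b
  rw [hfin] at hcard
  set e := (Fintype.equivFinOfCardEq hcard.symm) with he
  set b' := b.reindex e with hb'
  have hmem : ∀ i, b' i ∈ rv '' Ξ := by
    intro i
    rw [hb', Module.Basis.reindex_apply]
    exact Module.Basis.ofSpan_subset h.ge ⟨_, rfl⟩
  choose xs hxs hxe using hmem
  refine ⟨xs, hxs, ?_⟩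
  have h1 : LinearIndependent ℝ (mt xs).row := by
    have : (mt xs).row = b' := by
      funext i
      rw [← hxe i]
      rfl
    rw [this]
    exact b'.linearIndependent
  rw [Matrix.linearIndependent_rows_iff_isUnit, Matrix.isUnit_iff_isUnit_det] at h1
  exact h1.ne_zero

theorem inv_col (xs : Fin c → Fin c → ℤ) (h : (mt xs).det ≠ 0) (ξ : Fin c → ℤ) (i : Fin c) :
    ∑ j, (ξ j : ℝ) * (mt xs)⁻¹ j i = (mt (Function.update xs i ξ)).det / (mt xs).det := by
  have h1 : mt (Function.update xs i ξ) = (mt xs).updateRow i (rv ξ) := by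
    ext a b
    by_cases ha : a = i
    · subst ha
      simp [mt, rv]
    · simp [mt, rv, Matrix.updateRow_ne ha, Function.update_of_ne ha]
  rw [h1, ← Matrix.cramer_transpose_apply, Matrix.cramer_eq_adjugate_mulVec,
    ← Matrix.adjugate_transpose, Matrix.mulVec, dotProduct, Matrix.inv_def, Ring.inverse_eq_inv',
    eq_div_iff h, Finset.sum_mul]
  refine Finset.sum_congr rfl fun j _ => ?_
  simp only [Matrix.smul_apply, smul_eq_mul, Matrix.transpose_apply, rv]
  field_simp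

/-- Either the vectors are nearly orthogonal to a covector, or there is a good basis. -/
theorem lin_alt (Ξ : Set (Fin c → ℤ)) (hfin : Ξ.Finite) (b : ℝ) (hb : 0 < b) :
    (∃ n : Fin c → ℝ, ∑ i, |n i| = 1 ∧ ∀ ξ ∈ Ξ, |∑ i, n i * ξ i| ≤ b) ∨
    ∃ xs : Fin c → Fin c → ℤ, (∀ i, xs i ∈ Ξ) ∧ ∀ D : Fin c → ℝ, ∃ x : Fin c → ℝ,
      (∀ j, ∑ i, x i * xs i j = D j) ∧ ∀ R, (∀ j, |D j| ≤ R) → ∀ i, |x i| ≤ R / b := by
  by_cases hsp : Submodule.span ℝ (rv '' Ξ) = ⊤
  swap
  · obtain ⟨n, hn, h⟩ := orth_of_span Ξ (lt_top_iff_ne_top.2 hsp)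
    refine Or.inl ⟨n, hn, fun ξ hξ => ?_⟩
    rw [h ξ hξ, abs_zero]
    exact hb.le
  by_cases hno : ∃ n : Fin c → ℝ, ∑ i, |n i| = 1 ∧ ∀ ξ ∈ Ξ, |∑ i, n i * ξ i| ≤ b
  · exact Or.inl hno
  right
  push Not at hno
  obtain ⟨xs₀, hx₀, hd₀⟩ := basis_of_span Ξ hsp
  set T : Set (Fin c → Fin c → ℤ) := Set.pi Set.univ fun _ => Ξ with hT
  have hTf : T.Finite := Set.Finite.pi' (fun _ => hfin) |>.subset (by
    intro x hx
    simpa [hT] using hx)
  obtain ⟨xs, hxs, hmax⟩ := Set.exists_max_image T (fun xs => |(mt xs).det|) hTf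
    ⟨xs₀, by simpa [hT] using hx₀⟩
  have hxs' : ∀ i, xs i ∈ Ξ := by simpa [hT] using hxs
  have hd : (mt xs).det ≠ 0 := by
    intro h0
    have h1 := hmax xs₀ (by simpa [hT] using hx₀)
    simp only [h0, abs_zero] at h1
    exact hd₀ (abs_nonpos_iff.1 h1)
  have hu : IsUnit (mt xs).det := isUnit_iff_ne_zero.2 hd
  -- the columns of the inverse matrix
  have hcol : ∀ i, ∀ ξ ∈ Ξ, |∑ j, (ξ j : ℝ) * (mt xs)⁻¹ j i| ≤ 1 := by
    intro i ξ hξ
    rw [inv_col xs hd, abs_div, div_le_one (abs_pos.2 hd)]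
    refine hmax _ ?_
    simp only [hT, Set.mem_pi, Set.mem_univ, true_imp_iff]
    intro k
    by_cases hk : k = i
    · subst hk
      simpa using hξ
    · simpa [Function.update_of_ne hk] using hxs' k
  have hs : ∀ i, ∑ j, |(mt xs)⁻¹ j i| ≤ 1 / b := by
    intro i
    set s := ∑ j, |(mt xs)⁻¹ j i| with hs
    have hs0 : 0 < s := by
      rcases (Finset.sum_nonneg fun j (_ : j ∈ univ) => abs_nonneg ((mt xs)⁻¹ j i)).eq_or_lt
        with h0 | h0
      · exfalso
        have h1 : ∀ j ∈ univ, |(mt xs)⁻¹ j i| = 0 :=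
          (Finset.sum_eq_zero_iff_of_nonneg fun i _ => abs_nonneg _).1 h0.symm
        have h2 : (mt xs * (mt xs)⁻¹) i i = 1 := by
          rw [Matrix.mul_nonsing_inv _ hu, Matrix.one_apply_eq]
        rw [Matrix.mul_apply] at h2
        rw [Finset.sum_eq_zero] at h2
        · norm_num at h2
        · intro j hj
          rw [abs_eq_zero.1 (h1 j hj), mul_zero]
      · exact h0
    obtain ⟨ξ, hξ, hb'⟩ := hno (fun j => (mt xs)⁻¹ j i / s) (by
      have : ∀ j, |(mt xs)⁻¹ j i / s| = |(mt xs)⁻¹ j i| / s := by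
        intro j
        rw [abs_div, abs_of_pos hs0]
      simp only [this]
      rw [← Finset.sum_div, div_self hs0.ne'])
    have h1 : ∑ j, (mt xs)⁻¹ j i / s * (ξ j : ℝ) = (∑ j, (ξ j : ℝ) * (mt xs)⁻¹ j i) / s := by
      rw [Finset.sum_div]
      exact Finset.sum_congr rfl fun j _ => by ring
    rw [h1, abs_div, abs_of_pos hs0, lt_div_iff₀ hs0] at hb'
    have h2 := hcol i ξ hξ
    rw [le_div_iff₀ hb]
    linarith
  refine ⟨xs, hxs', fun D => ⟨fun i => ∑ j, D j * (mt xs)⁻¹ j i, ?_, ?_⟩⟩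
  · intro j
    have h1 : (D ᵥ* (mt xs)⁻¹) ᵥ* (mt xs) = D := by
      rw [Matrix.vecMul_vecMul, Matrix.nonsing_inv_mul _ hu, Matrix.vecMul_one]
    have h2 := congrFun h1 j
    rw [← h2]
    rfl
  · intro R hR i
    have h1 : |∑ j, D j * (mt xs)⁻¹ j i| ≤ ∑ j, R * |(mt xs)⁻¹ j i| := by
      refine (Finset.abs_sum_le_sum_abs _ _).trans (Finset.sum_le_sum fun j _ => ?_)
      rw [abs_mul]
      exact mul_le_mul_of_nonneg_right (hR j) (abs_nonneg _)
    rw [← Finset.mul_sum] at h1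
    have hR0 : 0 ≤ R := (abs_nonneg _).trans (hR i)
    calc |∑ j, D j * (mt xs)⁻¹ j i| ≤ R * ∑ j, |(mt xs)⁻¹ j i| := h1
      _ ≤ R * (1 / b) := mul_le_mul_of_nonneg_left (hs i) hR0
      _ = R / b := by ring

end Pool.Agent.H1.OCM
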