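import Mathlib

/-!
# A function on the lattice which changes slowly along the good edges

`path_le`: if the values of `f` at two neighbouring good lattice points differ by at most `e`, then
along the segment from `0` to `x` the values of `f` at the rounded points differ by at most
`m c e`, if all the lattice points near the segment are good.
-/

set_option autoImplicit false

namespace Pool.Agent.H1.OCM

open Finset

variable {c : ℕ}

/-- The mixed vector. -/
def mix (S : Finset (Fin c)) (a a' : Fin c → ℤ) (i : Fin c) : ℤ := if i ∈ S then a' i else a i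

theorem mix_le (f : (Fin c → ℤ) → ℝ) (G : Set (Fin c → ℤ)) (e : ℝ) (he : 0 ≤ e)
    (hf : ∀ a, a ∈ G → ∀ i, Function.update a i (a i + 1) ∈ G →
      |f a - f (Function.update a i (a i + 1))| ≤ e)
    (a a' : Fin c → ℤ) (h1 : ∀ i, |a i - a' i| ≤ 1)
    (hG : ∀ b : Fin c → ℤ, (∀ i, b i = a i ∨ b i = a' i) → b ∈ G) (S : Finset (Fin c)) :
    |f a - f (mix S a a')| ≤ S.card * e := by
  classical
  induction S using Finset.induction_on with
  | empty =>
    have : mix ∅ a a' = a := by
      funext i
      simp [mix]
    rw [this]
    simp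
  | insert j S hj ih =>
    rw [Finset.card_insert_of_notMem hj]
    have hm : mix S a a' ∈ G := hG _ fun i => by
      unfold mix
      split_ifs
      · exact Or.inr rfl
      · exact Or.inl rfl
    have hm' : mix (insert j S) a a' ∈ G := hG _ fun i => by
      unfold mix
      split_ifs
      · exact Or.inr rfl
      · exact Or.inl rfl
    have e0 : mix S a a' j = a j := by
      unfold mix
      rw [if_neg hj]
    have e1 : mix (insert j S) a a' = Function.update (mix S a a') j (a' j) := by
      funext i
      by_cases hi : i = j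
      · subst hi
        simp [mix]
      · rw [Function.update_of_ne hi]
        simp [mix, hi]
    have key : |f (mix S a a') - f (mix (insert j S) a a')| ≤ e := by
      have h2 := h1 j
      rw [abs_le] at h2
      have h3 : a' j = a j ∨ a' j = a j + 1 ∨ a' j + 1 = a j := by omega
      rcases h3 with h3 | h3 | h3
      · rw [e1, h3, ← e0, Function.update_eq_self, sub_self, abs_zero]
        exact he
      · have h4 : mix (insert j S) a a' = Function.update (mix S a a') j (mix S a a' j + 1) := by
          rw [e1, e0, h3]
        rw [h4]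
        rw [h4] at hm'
        exact hf _ hm j hm'
      · have h4 : mix S a a' = Function.update (mix (insert j S) a a') j
            (mix (insert j S) a a' j + 1) := by
          rw [e1]
          simp only [Function.update_self, Function.update_idem]
          rw [h3, ← e0, Function.update_eq_self]
        rw [abs_sub_comm]
        have h5 := hf _ hm' j (by rw [← h4]; exact hm)
        rwa [← h4] at h5
    have h6 : f a - f (mix (insert j S) a a') =
        (f a - f (mix S a a')) + (f (mix S a a') - f (mix (insert j S) a a')) := by ring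
    rw [h6]
    refine (abs_add_le _ _).trans ?_
    push_cast
    linarith

theorem step_le (f : (Fin c → ℤ) → ℝ) (G : Set (Fin c → ℤ)) (e : ℝ) (he : 0 ≤ e)
    (hf : ∀ a, a ∈ G → ∀ i, Function.update a i (a i + 1) ∈ G →
      |f a - f (Function.update a i (a i + 1))| ≤ e)
    (a a' : Fin c → ℤ) (h1 : ∀ i, |a i - a' i| ≤ 1)
    (hG : ∀ b : Fin c → ℤ, (∀ i, b i = a i ∨ b i = a' i) → b ∈ G) :
    |f a - f a'| ≤ c * e := by
  have h := mix_le f G e he hf a a' h1 hG univ
  have e1 : mix univ a a' = a' := by
    funext i
    simp [mix]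
  rwa [e1, card_univ, Fintype.card_fin] at h

/-- The values along a segment. -/
theorem path_le (f : (Fin c → ℤ) → ℝ) (G : Set (Fin c → ℤ)) (e : ℝ) (he : 0 ≤ e)
    (hf : ∀ a, a ∈ G → ∀ i, Function.update a i (a i + 1) ∈ G →
      |f a - f (Function.update a i (a i + 1))| ≤ e)
    (x : Fin c → ℝ) (m : ℕ) (hx : ∀ i, |x i| ≤ m)
    (hG : ∀ (t : ℝ) (b : Fin c → ℤ), 0 ≤ t → t ≤ 1 → (∀ i, |(b i : ℝ) - t * x i| ≤ 2) → b ∈ G) :
    |f 0 - f (fun i => ⌊x i⌋)| ≤ m * (c * e) := by
  rcases Nat.eq_zero_or_pos m with h0 | hm
  · subst h0
    have : (fun i => ⌊x i⌋) = (0 : Fin c → ℤ) := by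
      funext i
      have h1 := hx i
      simp only [Nat.cast_zero] at h1
      have h2 : x i = 0 := abs_nonpos_iff.1 h1
      simp [h2]
    rw [this]
    simp
  have hm0 : (0 : ℝ) < m := by exact_mod_cast hm
  have key : ∀ s : ℕ, s ≤ m → |f 0 - f (fun i => ⌊(s / m : ℝ) * x i⌋)| ≤ s * (c * e) := by
    intro s
    induction s with
    | zero =>
      intro _
      have : (fun i => ⌊(((0 : ℕ) : ℝ) / m : ℝ) * x i⌋) = (0 : Fin c → ℤ) := by
        funext i
        simp
      rw [this]
      simp
    | succ s ih =>
      intro hs
      have h1 := ih (by omega)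
      have hsm : ((s : ℝ) + 1) ≤ m := by exact_mod_cast hs
      have h2 := step_le f G e he hf (fun i => ⌊(s / m : ℝ) * x i⌋)
        (fun i => ⌊((s + 1 : ℕ) / m : ℝ) * x i⌋) ?_ ?_
      · have h6 : f 0 - f (fun i => ⌊((s + 1 : ℕ) / m : ℝ) * x i⌋) =
            (f 0 - f (fun i => ⌊(s / m : ℝ) * x i⌋)) + (f (fun i => ⌊(s / m : ℝ) * x i⌋) -
              f (fun i => ⌊((s + 1 : ℕ) / m : ℝ) * x i⌋)) := by ring
        rw [h6]
        refine (abs_add_le _ _).trans ?_
        push_cast at h2 ⊢
        linarith
      · intro i
        have d1 : |((s + 1 : ℕ) / m : ℝ) * x i - (s / m : ℝ) * x i| ≤ 1 := by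
          have : ((s + 1 : ℕ) / m : ℝ) * x i - (s / m : ℝ) * x i = x i / m := by
            push_cast
            field_simp
            ring
          rw [this, abs_div, abs_of_pos hm0, div_le_one hm0]
          exact hx i
        have f1 := Int.floor_le ((s / m : ℝ) * x i)
        have f2 := Int.lt_floor_add_one ((s / m : ℝ) * x i)
        have f3 := Int.floor_le (((s + 1 : ℕ) / m : ℝ) * x i)
        have f4 := Int.lt_floor_add_one (((s + 1 : ℕ) / m : ℝ) * x i)
        rw [abs_le] at d1
        have g1 : ((⌊(s / m : ℝ) * x i⌋ : ℤ) : ℝ) <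
            ((⌊((s + 1 : ℕ) / m : ℝ) * x i⌋ + 2 : ℤ) : ℝ) := by
          push_cast at *
          linarith
        have g2 : ((⌊((s + 1 : ℕ) / m : ℝ) * x i⌋ : ℤ) : ℝ) <
            ((⌊(s / m : ℝ) * x i⌋ + 2 : ℤ) : ℝ) := by
          push_cast at *
          linarith
        have g1' := Int.cast_lt.1 g1
        have g2' := Int.cast_lt.1 g2
        rw [abs_le]
        constructor <;> omega
      · intro b hb
        refine hG (s / m) b (by positivity) (by rw [div_le_one hm0]; linarith) fun i => ?_
        have d1 : |((s + 1 : ℕ) / m : ℝ) * x i - (s / m : ℝ) * x i| ≤ 1 := by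
          have : ((s + 1 : ℕ) / m : ℝ) * x i - (s / m : ℝ) * x i = x i / m := by
            push_cast
            field_simp
            ring
          rw [this, abs_div, abs_of_pos hm0, div_le_one hm0]
          exact hx i
        have f1 := Int.floor_le ((s / m : ℝ) * x i)
        have f2 := Int.lt_floor_add_one ((s / m : ℝ) * x i)
        have f3 := Int.floor_le (((s + 1 : ℕ) / m : ℝ) * x i)
        have f4 := Int.lt_floor_add_one (((s + 1 : ℕ) / m : ℝ) * x i)
        rw [abs_le] at d1 ⊢
        rcases hb i with h | h
        · rw [h]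
          constructor <;> linarith
        · rw [h]
          constructor <;> linarith
  have h := key m le_rfl
  rw [div_self hm0.ne'] at h
  simpa using h

end Pool.Agent.H1.OCM
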