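import Pool.Agent.H86.OCM.Defs
import Pool.Agent.H1.OCM.Lin
import Pool.Agent.H1.OCM.Path

/-!
# LAT: nearly invariant laws on a box and full rows

A law on a box which is nearly invariant inside the box under vectors which are not nearly
orthogonal to one covector gives every cell of side `2 ^ κ` away from the boundary a mass at most
`C 2 ^ (-c K)`: the cell can be moved, by combinations of the vectors and inside the box, into
every box of a coarser grid.
-/

set_option autoImplicit false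

namespace Pool.Agent.H1.OCM

open Finset Real
open Pool.Agent.H49.Ent Pool.Agent.H32.Dense Pool.STK Pool.KAF Pool.KAL Pool.KX Pool.OCM.RV

variable {c : ℕ}

/-- The vector with the coefficients `a`. -/
def lam (xs : Fin c → Fin c → ℤ) (a : Fin c → ℤ) (j : Fin c) : ℤ := ∑ i, a i * xs i j

/-- The cube with the corner `q` and the side `s`. -/
def qq (s : ℤ) (q : Fin c → ℤ) : Set (Fin c → ℤ) := {z | ∀ j, q j ≤ z j ∧ z j < q j + s}

/-- The moved cube. -/
def mv (xs : Fin c → Fin c → ℤ) (s : ℤ) (q a : Fin c → ℤ) : Set (Fin c → ℤ) :=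
  {z | (fun j => z j - lam xs a j) ∈ qq s q}

theorem lam_update (xs : Fin c → Fin c → ℤ) (a : Fin c → ℤ) (i j : Fin c) :
    lam xs (Function.update a i (a i + 1)) j = lam xs a j + xs i j := by
  classical
  unfold lam
  rw [← Finset.sum_erase_add _ _ (mem_univ i), ← Finset.sum_erase_add _ _ (mem_univ i)]
  have : ∀ k ∈ univ.erase i, Function.update a i (a i + 1) k * xs k j = a k * xs k j := by
    intro k hk
    rw [Function.update_of_ne (Finset.ne_of_mem_erase hk)]
  rw [Finset.sum_congr rfl this, Function.update_self]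
  ring

theorem lam_near (xs : Fin c → Fin c → ℤ) (A : ℤ) (hA : ∀ i j, |xs i j| ≤ A) (x : Fin c → ℝ)
    (b : Fin c → ℤ) (r : ℝ) (hr : 0 ≤ r) (hb : ∀ i, |(b i : ℝ) - x i| ≤ r) (j : Fin c) :
    |(lam xs b j : ℝ) - ∑ i, x i * xs i j| ≤ c * r * A := by
  have e : (lam xs b j : ℝ) - ∑ i, x i * xs i j = ∑ i, ((b i : ℝ) - x i) * xs i j := by
    unfold lam
    push_cast
    rw [← Finset.sum_sub_distrib]
    exact Finset.sum_congr rfl fun i _ => by ring
  rw [e]
  refine (Finset.abs_sum_le_sum_abs _ _).trans ?_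
  have : ∀ i ∈ (univ : Finset (Fin c)), |((b i : ℝ) - x i) * xs i j| ≤ r * A := by
    intro i _
    rw [abs_mul]
    have h1 : |(xs i j : ℝ)| ≤ A := by
      have := hA i j
      have h2 : ((|xs i j| : ℤ) : ℝ) ≤ (A : ℝ) := by exact_mod_cast this
      rwa [Int.cast_abs] at h2
    exact mul_le_mul (hb i) h1 (abs_nonneg _) hr
  refine (Finset.sum_le_card_nsmul _ _ _ this).trans (le_of_eq ?_)
  rw [card_univ, Fintype.card_fin, nsmul_eq_mul]
  ring

/-- The probabilities of disjoint events. -/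
theorem sum_Pr_le {Ω ι : Type} [Fintype Ω] [Fintype ι] {μ : Ω → ℝ} (hμ : IsLaw μ)
    (E : ι → Set Ω) (hd : ∀ g g' ω, ω ∈ E g → ω ∈ E g' → g = g') : ∑ g, Pr μ (E g) ≤ 1 := by
  classical
  rw [← hμ.sum_one]
  have : ∀ g, Pr μ (E g) = ∑ ω, if ω ∈ E g then μ ω else 0 := fun g => TI.Pr_eq μ (E g)
  simp only [this]
  rw [Finset.sum_comm]
  refine Finset.sum_le_sum fun ω _ => ?_
  by_cases h : ∃ g, ω ∈ E g
  · obtain ⟨g, hg⟩ := h
    rw [Finset.sum_eq_single g]
    · rw [if_pos hg]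
    · intro g' _ hne
      rw [if_neg]
      intro h'
      exact hne (hd g' g ω h' hg)
    · intro h'
      exact absurd (mem_univ g) h'
  · rw [Finset.sum_eq_zero]
    · exact hμ.nonneg ω
    · intro g _
      rw [if_neg]
      intro h'
      exact h ⟨g, h'⟩

/-- **The mass of a cell.** -/
theorem cell_bound {Ω : Type} [Fintype Ω] {μ : Ω → ℝ} (hμ : IsLaw μ) (Y : Ω → Fin c → ℤ)
    (v q : Fin c → ℤ) (m : ℕ) (A : ℤ) (hA0 : 0 < A) (xs : Fin c → Fin c → ℤ)
    (hA : ∀ i j, |xs i j| ≤ A) (b e : ℝ) (he : 0 ≤ e)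
    (hlin : ∀ D : Fin c → ℝ, ∃ x : Fin c → ℝ,
      (∀ j, ∑ i, x i * xs i j = D j) ∧ ∀ R, (∀ j, |D j| ≤ R) → ∀ i, |x i| ≤ R / b)
    (hT : ∀ i, TIVin μ Y (box v m A) (xs i) e) (G0 M0 : ℕ)
    (hG0 : (4 * c + 4) * A + G0 * ((2 * c + 3) * A) ≤ 2 ^ m) (hM0 : (2 : ℝ) ^ m / b ≤ M0)
    (hq : ∀ j, v j * 2 ^ m + (2 * c + 1) * A ≤ q j ∧
      q j + (2 * c + 3) * A ≤ (v j + 1) * 2 ^ m) :
    (G0 : ℝ) ^ c * (Pr μ {ω | Y ω ∈ qq (2 * A) q} - M0 * (c * e)) ≤ 1 := by
  classical
  have hAR : (0 : ℝ) < A := by exact_mod_cast hA0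
  have c0 : (0 : ℝ) ≤ c := Nat.cast_nonneg c
  set f : (Fin c → ℤ) → ℝ := fun a => Pr μ {ω | Y ω ∈ mv xs (2 * A) q a} with hf
  set G : Set (Fin c → ℤ) := {a | ∀ z ∈ mv xs (2 * A) q a, z ∈ box v m A} with hG
  have hstep : ∀ a, a ∈ G → ∀ i, Function.update a i (a i + 1) ∈ G →
      |f a - f (Function.update a i (a i + 1))| ≤ e := by
    intro a ha i ha'
    have h1 := hT i (mv xs (2 * A) q a) ha (fun y hy => ha' _ (by
      show (fun j => (y + xs i) j - lam xs _ j) ∈ qq (2 * A) q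
      have : (fun j => (y + xs i) j - lam xs (Function.update a i (a i + 1)) j) =
          fun j => y j - lam xs a j := by
        funext j
        rw [lam_update, Pi.add_apply]
        ring
      rw [this]
      exact hy))
    have h2 : {ω | Y ω - xs i ∈ mv xs (2 * A) q a} =
        {ω | Y ω ∈ mv xs (2 * A) q (Function.update a i (a i + 1))} := by
      ext ω
      show (fun j => (Y ω - xs i) j - lam xs a j) ∈ qq (2 * A) q ↔
        (fun j => Y ω j - lam xs (Function.update a i (a i + 1)) j) ∈ qq (2 * A) q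
      have : (fun j => Y ω j - lam xs (Function.update a i (a i + 1)) j) =
          fun j => (Y ω - xs i) j - lam xs a j := by
        funext j
        rw [lam_update, Pi.sub_apply]
        ring
      rw [this]
    rw [h2] at h1
    exact h1
  -- the target
  set P : (Fin c → Fin G0) → Fin c → ℝ := fun g j =>
    (v j * 2 ^ m + (2 * c + 1) * A : ℝ) + ((g j : ℕ) : ℝ) * ((2 * c + 3) * A) with hP
  have hG0' : (4 * c + 4) * (A : ℝ) + G0 * ((2 * c + 3) * A) ≤ 2 ^ m := by exact_mod_cast hG0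
  have hq' : ∀ j, (v j : ℝ) * 2 ^ m + (2 * c + 1) * A ≤ q j ∧
      (q j : ℝ) + (2 * c + 3) * A ≤ (v j + 1) * 2 ^ m := by
    intro j
    constructor
    · exact_mod_cast (hq j).1
    · exact_mod_cast (hq j).2
  have hP1 : ∀ g j, (v j : ℝ) * 2 ^ m + (2 * c + 1) * A ≤ P g j ∧
      P g j + (2 * c + 3) * A ≤ (v j + 1) * 2 ^ m := by
    intro g j
    have h1 : ((g j : ℕ) : ℝ) ≤ G0 := by exact_mod_cast (g j).2.le
    have h2 : (0 : ℝ) ≤ ((g j : ℕ) : ℝ) := Nat.cast_nonneg _
    have h3 : (0 : ℝ) ≤ (2 * c + 3) * A := by positivity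
    have h4 := mul_le_mul_of_nonneg_right h1 h3
    have h5 := mul_nonneg h2 h3
    simp only [hP]
    constructor
    · linarith only [h5]
    · nlinarith only [hG0', h4]
  choose x hx1 hx2 using fun g : Fin c → Fin G0 => hlin (fun j => P g j - q j)
  have hxm : ∀ g i, |x g i| ≤ M0 := by
    intro g i
    refine (hx2 g (2 ^ m) (fun j => ?_) i).trans hM0
    have h1 := hq' j
    have h2 := hP1 g j
    have h3 : (0 : ℝ) ≤ (2 * c + 3) * A := by positivity
    have h4 : (0 : ℝ) ≤ (2 * c + 1) * A := by positivity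
    rw [abs_le]
    constructor <;> nlinarith only [hAR, h1, h2, h4, h1.1, h1.2, h2.1, h2.2]
  have hgood : ∀ g, ∀ (t : ℝ) (b : Fin c → ℤ), 0 ≤ t → t ≤ 1 →
      (∀ i, |(b i : ℝ) - t * x g i| ≤ 2) → b ∈ G := by
    intro g t b ht0 ht1 hb z hz j
    have hz' := hz j
    simp only at hz'
    have h1 := lam_near xs A hA (fun i => t * x g i) b 2 (by norm_num) hb j
    have h2 : ∑ i, t * x g i * (xs i j : ℝ) = t * (P g j - q j) := by
      rw [← hx1 g j, Finset.mul_sum]
      exact Finset.sum_congr rfl fun i _ => by ring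
    rw [h2, abs_le] at h1
    have z1 : (q j : ℝ) ≤ z j - lam xs b j := by exact_mod_cast hz'.1
    have z2 : (z j : ℝ) - lam xs b j < q j + 2 * A := by exact_mod_cast hz'.2
    have h3 := hq' j
    have h4 := hP1 g j
    have k1 : (v j : ℝ) * 2 ^ m + (2 * c + 1) * A ≤ q j + t * (P g j - q j) := by
      nlinarith only [ht0, h4, ht1, h3, h3.1, h4.1]
    have k2 : q j + t * (P g j - q j) + (2 * c + 3) * A ≤ (v j + 1) * 2 ^ m := by
      nlinarith only [ht0, h4, ht1, h3, h3.2, h4.2]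
    constructor
    · have : (v j : ℝ) * 2 ^ m + A ≤ z j := by nlinarith only [h1, z1, k1, h1.1, h1.2]
      push_cast
      exact_mod_cast this
    · have : (z j : ℝ) + A < (v j + 1) * 2 ^ m := by nlinarith only [h1, z2, k2, h1.1, h1.2]
      push_cast
      exact_mod_cast this
  have hpath : ∀ g, f 0 - M0 * (c * e) ≤ f (fun i => ⌊x g i⌋) := by
    intro g
    have h := path_le f G e he hstep (x g) M0 (hxm g) (hgood g)
    rw [abs_le] at h
    linarith only [h, h.2]
  have hdis : ∀ g g' ω, Y ω ∈ mv xs (2 * A) q (fun i => ⌊x g i⌋) →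
      Y ω ∈ mv xs (2 * A) q (fun i => ⌊x g' i⌋) → g = g' := by
    intro g g' ω h h'
    funext j
    have hfl : ∀ g i, |((⌊x g i⌋ : ℤ) : ℝ) - x g i| ≤ 1 := by
      intro g i
      have h1 := Int.floor_le (x g i)
      have h2 := Int.lt_floor_add_one (x g i)
      rw [abs_le]
      constructor <;> linarith
    have n1 := lam_near xs A hA (x g) (fun i => ⌊x g i⌋) 1 (by norm_num) (hfl g) j
    have n2 := lam_near xs A hA (x g') (fun i => ⌊x g' i⌋) 1 (by norm_num) (hfl g') j
    rw [hx1 g j, abs_le] at n1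
    rw [hx1 g' j, abs_le] at n2
    have z1 := h j
    have z2 := h' j
    simp only at z1 z2
    have y1 : (q j : ℝ) ≤ Y ω j - lam xs (fun i => ⌊x g i⌋) j := by exact_mod_cast z1.1
    have y2 : (Y ω j : ℝ) - lam xs (fun i => ⌊x g i⌋) j < q j + 2 * A := by exact_mod_cast z1.2
    have y3 : (q j : ℝ) ≤ Y ω j - lam xs (fun i => ⌊x g' i⌋) j := by exact_mod_cast z2.1
    have y4 : (Y ω j : ℝ) - lam xs (fun i => ⌊x g' i⌋) j < q j + 2 * A := by exact_mod_cast z2.2
    have hd : |P g j - P g' j| < (2 * c + 3) * A := by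
      rw [abs_lt]
      constructor <;> nlinarith [n1.1, n1.2, n2.1, n2.2]
    have e1 : P g j - P g' j = (((g j : ℕ) : ℝ) - ((g' j : ℕ) : ℝ)) * ((2 * c + 3) * A) := by
      simp only [hP]
      ring
    have hL : (0 : ℝ) < (2 * c + 3) * A := by positivity
    rw [e1, abs_mul, abs_of_pos hL] at hd
    have hd2 : |((g j : ℕ) : ℝ) - ((g' j : ℕ) : ℝ)| < 1 := by
      by_contra hn
      push Not at hn
      nlinarith only [hd, hAR, hn, n1]
    have hd3 : |((g j : ℕ) : ℤ) - ((g' j : ℕ) : ℤ)| < 1 := by exact_mod_cast hd2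
    rw [abs_lt] at hd3
    exact Fin.ext (by omega)
  have hsum := sum_Pr_le hμ (fun g : Fin c → Fin G0 =>
    {ω | Y ω ∈ mv xs (2 * A) q (fun i => ⌊x g i⌋)}) (fun g g' ω => hdis g g' ω)
  have hcard := Finset.card_nsmul_le_sum (univ : Finset (Fin c → Fin G0)) _ _
    (fun g _ => hpath g)
  rw [card_univ, Fintype.card_fun, Fintype.card_fin, Fintype.card_fin, nsmul_eq_mul] at hcard
  push_cast at hcard
  have hf0 : f 0 = Pr μ {ω | Y ω ∈ qq (2 * A) q} := by
    have : mv xs (2 * A) q 0 = qq (2 * A) q := by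
      ext z
      show (fun j => z j - lam xs 0 j) ∈ qq (2 * A) q ↔ z ∈ qq (2 * A) q
      have : (fun j => z j - lam xs 0 j) = z := by
        funext j
        simp [lam]
      rw [this]
    simp only [hf]
    rw [this]
  rw [← hf0]
  exact hcard.trans hsum

/-- The smoothed law is a law. -/
theorem isLaw_smp {Ω : Type} [Fintype Ω] {p : Ω → ℝ} (hp : IsLaw p) (d N : ℕ) (hN : 0 < N) :
    IsLaw (smp d N p) := by
  have hN0 : (0 : ℝ) < (N : ℝ) ^ d := by positivity
  refine ⟨fun w => div_nonneg (hp.nonneg _) hN0.le, ?_⟩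
  rw [Fintype.sum_prod_type]
  unfold smp
  simp only
  have : ∀ x : Ω, ∑ _y : Fin d → Fin N, p x / (N : ℝ) ^ d = p x := by
    intro x
    rw [Finset.sum_const, card_univ, Fintype.card_fun, Fintype.card_fin, Fintype.card_fin,
      nsmul_eq_mul]
    push_cast
    field_simp
  rw [Finset.sum_congr rfl fun x _ => this x]
  exact hp.sum_one

/-- The mass of a cell is at most the mass of the larger cube under the smoothed law. -/
theorem law_le_smp {Ω : Type} [Fintype Ω] {p : Ω → ℝ} (hp : IsLaw p) (X : Ω → Fin c → ℤ)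
    (kb κ : ℕ) (hk : kb ≤ κ) (u : Fin c → ℤ) :
    law p (cl X 0 κ) u ≤ Pr (smp c (2 ^ kb) p)
      {w | smX (N := 2 ^ kb) X w ∈ qq (2 * 2 ^ κ) (fun j => u j * 2 ^ κ)} := by
  classical
  have h := TI.Pr_smp (N := 2 ^ kb) p X (fun _ => qq (2 * 2 ^ κ) (fun j => u j * 2 ^ κ))
  rw [h]
  unfold law
  refine Finset.sum_le_sum fun ω _ => ?_
  have h0 := TI.avg_nonneg (N := 2 ^ kb) (qq (2 * 2 ^ κ) (fun j => u j * 2 ^ κ)) (X ω)
  by_cases hu : cl X 0 κ ω = u
  · rw [if_pos hu]
    have h1 : TI.avg c (2 ^ kb) (qq (2 * 2 ^ κ) (fun j => u j * 2 ^ κ)) (X ω) = 1 := by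
      unfold TI.avg
      rw [Finset.filter_true_of_mem]
      · rw [card_univ, Fintype.card_fun, Fintype.card_fin, Fintype.card_fin]
        push_cast
        exact div_self (by positivity)
      · intro τ _ j
        have e1 : u j = X ω j / 2 ^ κ := by
          rw [← hu]
          simp [cl]
        have hpos : (0 : ℤ) < 2 ^ κ := by positivity
        have a1 := Int.mul_ediv_add_emod (X ω j) (2 ^ κ)
        have a2 := Int.emod_nonneg (X ω j) hpos.ne'
        have a3 := Int.emod_lt_of_pos (X ω j) hpos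
        rw [← e1] at a1
        have a4 : ((τ j : ℕ) : ℤ) < 2 ^ kb := by exact_mod_cast (τ j).2
        have a5 : (2 : ℤ) ^ kb ≤ 2 ^ κ := pow_le_pow_right₀ (by norm_num) hk
        have a6 : (0 : ℤ) ≤ ((τ j : ℕ) : ℤ) := Int.natCast_nonneg _
        simp only
        constructor <;> nlinarith
    rw [h1, mul_one]
  · rw [if_neg hu]
    exact mul_nonneg (hp.nonneg ω) h0

theorem law_le_one {Ω S : Type} [Fintype Ω] {p : Ω → ℝ} (hp : IsLaw p) (X : Ω → S) (x : S) :
    law p X x ≤ 1 := by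
  classical
  rw [← hp.sum_one]
  unfold law
  refine Finset.sum_le_sum fun ω _ => ?_
  split_ifs
  · exact le_rfl
  · exact hp.nonneg ω

open Classical in
/-- Entropy from a bound of the masses on an event. -/
theorem H_ge {Ω S : Type} [Fintype Ω] {p : Ω → ℝ} (hp : IsLaw p) (X : Ω → S) (B : Set Ω)
    (h : ℝ) (hB : ∀ ω, 0 < p ω → ω ∈ B → law p X (X ω) ≤ Real.exp (-h)) :
    h * (1 - Pr p {ω | ω ∉ B}) ≤ H p X := by
  have e1 : 1 - Pr p {ω | ω ∉ B} = ∑ ω, if ω ∈ B then p ω else 0 := by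
    rw [TI.Pr_eq, ← hp.sum_one, ← Finset.sum_sub_distrib]
    refine Finset.sum_congr rfl fun ω _ => ?_
    by_cases hω : ω ∈ B
    · rw [if_pos hω, if_neg (fun h' => h' hω), sub_zero]
    · rw [if_neg hω, if_pos (by exact hω), sub_self]
  rw [e1]
  unfold H
  rw [Finset.mul_sum, ← Finset.sum_neg_distrib]
  refine Finset.sum_le_sum fun ω _ => ?_
  rcases (hp.nonneg ω).eq_or_lt with h0 | h0
  · rw [← h0]
    simp
  · have l0 := law_pos hp.nonneg X h0
    by_cases hω : ω ∈ B
    · rw [if_pos hω]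
      have h2 := Real.log_le_log l0 (hB ω h0 hω)
      rw [Real.log_exp] at h2
      nlinarith only [h0, h2]
    · rw [if_neg hω, mul_zero]
      have h2 := Real.log_nonpos l0.le (law_le_one hp X (X ω))
      nlinarith only [h0, h2]

theorem six_le (c : ℕ) : 6 * c + 7 ≤ 2 ^ (2 * c + 4) := by
  have h : c + 1 ≤ 4 ^ c := by
    induction c with
    | zero => simp
    | succ n ih =>
      rw [pow_succ]
      omega
  rw [pow_add, pow_mul]
  norm_num
  omega

/-- **LAT.** -/
theorem lat_thm : Pool.OCM.RV.LATStmt := by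
  intro c hc
  have hc0 : (0 : ℝ) < c := by exact_mod_cast hc
  have hl2 : 0 < Real.log 2 := Real.log_pos (by norm_num)
  set k := 2 * c + 4 with hk
  refine ⟨c * (k + 1) * Real.log 2 + Real.log 2, 2 * c + 3, fun kd K => ?_⟩
  refine ⟨1 / ((2 : ℝ) ^ (K * c) * 2 ^ (kd + K) * c), by positivity, ?_⟩
  set e := 1 / ((2 : ℝ) ^ (K * c) * 2 ^ (kd + K) * c) with he
  have he0 : 0 < e := by positivity
  intro kb Ω _ p X v Ξ hp hcell hΞ
  have hPr0 : 0 ≤ Pr p {ω | X ω ∉ box v (kb + kd + K) (((2 * c + 3 : ℕ) : ℤ) * 2 ^ (kb + kd))} :=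
    law_nonneg hp.nonneg _ _
  set Pb := Pr p {ω | X ω ∉ box v (kb + kd + K) (((2 * c + 3 : ℕ) : ℤ) * 2 ^ (kb + kd))} with hPb
  have hH0 : 0 ≤ H p (cl X 0 (kb + kd)) := by
    have := H_ge hp (cl X 0 (kb + kd)) Set.univ 0 (fun ω _ _ => by
      rw [neg_zero, Real.exp_zero]
      exact law_le_one hp _ _)
    rwa [zero_mul] at this
  by_cases hKk : K < k
  · right
    have h1 : (K : ℝ) ≤ k := by exact_mod_cast hKk.le
    have h2 : (c : ℝ) * K * Real.log 2 ≤ c * (k + 1) * Real.log 2 := by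
      refine mul_le_mul_of_nonneg_right (mul_le_mul_of_nonneg_left (by linarith only [h1]) hc0.le) hl2.le
    have h3 : 0 ≤ (c : ℝ) * K * Real.log 2 * Pb := by positivity
    linarith only [hl2, hH0, h2, h3]
  push Not at hKk
  obtain ⟨K', rfl⟩ := Nat.exists_eq_add_of_le hKk
  have hfin : Ξ.Finite := by
    refine Set.Finite.subset (Set.finite_Icc (fun _ => -(2 ^ (kb + kd)) : Fin c → ℤ)
      (fun _ => 2 ^ (kb + kd))) ?_
    intro ξ hξ
    have h := (hΞ ξ hξ).1
    rw [Set.mem_Icc]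
    constructor <;> intro i
    · exact (abs_le.1 (h i)).1
    · exact (abs_le.1 (h i)).2
  rcases lin_alt Ξ hfin (2 ^ kb) (by positivity) with h | ⟨xs, hxs, hlin⟩
  · exact Or.inl h
  right
  set κ := kb + kd with hκ
  set m := κ + (k + K') with hm
  have hμ := isLaw_smp hp c (2 ^ kb) (by positivity)
  -- the masses of the cells
  have hcells : ∀ ω, 0 < p ω → ω ∈ {ω | X ω ∈ box v m (((2 * c + 3 : ℕ) : ℤ) * 2 ^ κ)} →
      law p (cl X 0 κ) (cl X 0 κ ω) ≤
        Real.exp (-(c * K' * Real.log 2 - Real.log 2)) := by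
    intro ω _ hω
    have hbox : ∀ j, v j * 2 ^ m + (2 * c + 3) * 2 ^ κ ≤ X ω j ∧
        X ω j + (2 * c + 3) * 2 ^ κ < (v j + 1) * 2 ^ m := by
      intro j
      have h := hω j
      push_cast at h
      exact h
    have hcb := cell_bound hμ (smX (N := 2 ^ kb) X) v (fun j => cl X 0 κ ω j * 2 ^ κ) m (2 ^ κ)
      (by positivity) xs (fun i j => (hΞ (xs i) (hxs i)).1 j) (2 ^ kb) e he0.le hlin
      (fun i => (hΞ (xs i) (hxs i)).2) (2 ^ K') (2 ^ (kd + (k + K'))) ?_ ?_ ?_
    · have hle := law_le_smp hp X kb κ (Nat.le_add_right kb kd) (cl X 0 κ ω)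
      set f0 := Pr (smp c (2 ^ kb) p) {w | smX (N := 2 ^ kb) X w ∈
        qq (2 * 2 ^ κ) (fun j => cl X 0 κ ω j * 2 ^ κ)} with hf0
      refine hle.trans ?_
      have e1 : (((2 ^ (kd + (k + K')) : ℕ) : ℝ)) * (c * e) = 1 / (2 : ℝ) ^ ((k + K') * c) := by
        rw [he]
        push_cast
        field_simp
      have e2 : (((2 ^ K' : ℕ) : ℝ)) ^ c = (2 : ℝ) ^ (K' * c) := by
        push_cast
        rw [← pow_mul]
      rw [e1, e2] at hcb
      have h2 : (2 : ℝ) ^ (K' * c) * (1 / (2 : ℝ) ^ ((k + K') * c)) ≤ 1 := by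
        rw [mul_one_div, div_le_one (by positivity)]
        exact pow_le_pow_right₀ (by norm_num) (Nat.mul_le_mul_right c (Nat.le_add_left K' k))
      have h3 : (2 : ℝ) ^ (K' * c) * f0 ≤ 2 := by
        rw [mul_sub] at hcb
        linarith only [hcb, h2]
      have e3 : Real.exp (-(c * K' * Real.log 2 - Real.log 2)) = 2 / (2 : ℝ) ^ (K' * c) := by
        rw [neg_sub, Real.exp_sub, Real.exp_log (by norm_num)]
        congr 1
        have : (c : ℝ) * K' * Real.log 2 = ((K' * c : ℕ) : ℝ) * Real.log 2 := by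
          push_cast
          ring
        rw [this, mul_comm, Real.exp_mul, Real.exp_log (by norm_num), Real.rpow_natCast]
      rw [e3, le_div_iff₀ (by positivity)]
      linarith only [hcb, h2]
    · -- the grid
      have h6 := six_le c
      have h7 : (4 * c + 4) + 2 ^ K' * (2 * c + 3) ≤ 2 ^ (k + K') := by
        have h8 : 1 ≤ 2 ^ K' := Nat.one_le_two_pow
        rw [pow_add]
        nlinarith only [h6, h8]
      have h9 : (4 * (c : ℤ) + 4) + 2 ^ K' * (2 * c + 3) ≤ 2 ^ (k + K') := by exact_mod_cast h7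
      have h10 : (0 : ℤ) ≤ 2 ^ κ := by positivity
      have h11 := mul_le_mul_of_nonneg_right h9 h10
      have h12 : (2 : ℤ) ^ m = 2 ^ (k + K') * 2 ^ κ := by
        rw [hm, pow_add, mul_comm]
      rw [h12]
      push_cast at h11 ⊢
      linarith only [h11]
    · -- the coefficients
      push_cast
      rw [div_le_iff₀ (by positivity), ← pow_add]
      refine pow_le_pow_right₀ (by norm_num) ?_
      omega
    · intro j
      have h := hbox j
      have e1 : cl X 0 κ ω j = X ω j / 2 ^ κ := by simp [cl]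
      have hpos : (0 : ℤ) < 2 ^ κ := by positivity
      have a1 := Int.mul_ediv_add_emod (X ω j) (2 ^ κ)
      have a2 := Int.emod_nonneg (X ω j) hpos.ne'
      have a3 := Int.emod_lt_of_pos (X ω j) hpos
      rw [← e1] at a1
      constructor <;> nlinarith [h.1, h.2]
  have h := H_ge hp (cl X 0 κ) {ω | X ω ∈ box v m (((2 * c + 3 : ℕ) : ℤ) * 2 ^ κ)}
    (c * K' * Real.log 2 - Real.log 2) hcells
  have h' : (c * K' * Real.log 2 - Real.log 2) * (1 - Pb) ≤ H p (cl X 0 κ) := h
  have hc2 : (0 : ℝ) ≤ c * k * Real.log 2 := by positivity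
  have h3 : 0 ≤ (c * k * Real.log 2 + Real.log 2) * Pb := by positivity
  push_cast
  nlinarith only [h', h3, hl2]

end Pool.Agent.H1.OCM
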